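import Mathlib
import Pool.Agent.H362R2.CM.Moon

/-!
Supersaturated Turan theorem for `K_{r+1}` and a fibre count (helper210).
-/

set_option autoImplicit false

namespace Pool.Agent.H210S

open Finset Pool.Agent.H362R2.CM

/-- supersaturated Turan theorem for `K_{r+1}` -/
theorem turan_gen {α : Type} (V : Finset α) (C : α → α → Prop) (hC : ∀ x y, C x y → C y x)
    (hV : 0 < V.card) (r : ℕ) (hr : 1 ≤ r) (δ : ℝ) (hδ : 0 < δ)
    (h : (1 - 1 / (r : ℝ) + δ) * (V.card : ℝ) ^ 2 ≤ ((clq V C 2).card : ℝ)) :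
    δ ^ r * (V.card : ℝ) ^ (r + 1) ≤ ((clq V C (r + 1)).card : ℝ) := by
  set v : ℝ := (V.card : ℝ) with hv
  have hvp : 0 < v := by rw [hv]; exact_mod_cast hV
  have hr0 : (0 : ℝ) < r := by exact_mod_cast hr
  have hr1 : (1 : ℝ) ≤ r := by exact_mod_cast hr
  have m1 : ((clq V C 1).card : ℝ) = v := by rw [card_clq_one]
  have key : ∀ s : ℕ, 1 ≤ s → s ≤ r →
      (1 - s / (r : ℝ) + s * δ) * v * ((clq V C s).card : ℝ) ≤ ((clq V C (s + 1)).card : ℝ) ∧
      0 < ((clq V C s).card : ℝ) ∧ δ ^ s * v ^ (s + 1) ≤ ((clq V C (s + 1)).card : ℝ) := by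
    intro s hs
    induction s, hs using Nat.le_induction with
    | base =>
      intro _
      have e1 : (1 - (1 : ℕ) / (r : ℝ) + (1 : ℕ) * δ) * v * ((clq V C 1).card : ℝ) ≤
          ((clq V C (1 + 1)).card : ℝ) := by
        rw [m1]
        push_cast
        nlinarith [h]
      refine ⟨e1, by rw [m1]; exact hvp, ?_⟩
      have h1 : 0 ≤ 1 - 1 / (r : ℝ) := by
        rw [sub_nonneg, div_le_one hr0]; exact hr1
      have h2 : δ * v ^ 2 ≤ (1 - 1 / (r : ℝ) + δ) * v ^ 2 := by
        apply mul_le_mul_of_nonneg_right _ (by positivity)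
        linarith
      rw [pow_one]
      exact h2.trans h
    | succ s hs ih =>
      intro hsr
      obtain ⟨i1, i2, i3⟩ := ih (by omega)
      have hs0 : (0 : ℝ) < s := by exact_mod_cast hs
      have hm : 0 < ((clq V C (s + 1)).card : ℝ) := lt_of_lt_of_le (by positivity) i3
      have st := ratio_step (a := ((clq V C s).card : ℝ)) (b := ((clq V C (s + 1)).card : ℝ))
        (c := ((clq V C (s + 2)).card : ℝ)) (v := v) (k := s) (r := 1 - s / (r : ℝ) + s * δ) i2 hm hvp
        hs0 i1 (moon_moser (V := V) hC s)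
      have e1 : (1 - ((s + 1 : ℕ) : ℝ) / (r : ℝ) + ((s + 1 : ℕ) : ℝ) * δ) * v *
          ((clq V C (s + 1)).card : ℝ) ≤ ((clq V C (s + 1 + 1)).card : ℝ) := by
        refine le_trans (le_of_eq ?_) st
        push_cast
        field_simp
        ring
      refine ⟨e1, hm, ?_⟩
      have h1 : 0 ≤ 1 - ((s + 1 : ℕ) : ℝ) / (r : ℝ) := by
        rw [sub_nonneg, div_le_one hr0]; exact_mod_cast hsr
      have h2 : δ ≤ 1 - ((s + 1 : ℕ) : ℝ) / (r : ℝ) + ((s + 1 : ℕ) : ℝ) * δ := by
        have h3 : (1 : ℝ) ≤ ((s + 1 : ℕ) : ℝ) := by push_cast; linarith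
        nlinarith
      calc δ ^ (s + 1) * v ^ (s + 1 + 1) = δ * v * (δ ^ s * v ^ (s + 1)) := by ring
        _ ≤ δ * v * ((clq V C (s + 1)).card : ℝ) := by gcongr
        _ ≤ (1 - ((s + 1 : ℕ) : ℝ) / (r : ℝ) + ((s + 1 : ℕ) : ℝ) * δ) * v *
          ((clq V C (s + 1)).card : ℝ) := by gcongr
        _ ≤ _ := e1
  exact (key r hr le_rfl).2.2

open Classical in
/-- the number of the tuples with a given property of the sub-tuple -/
theorem fiber {α : Type} (V : Finset α) {m n : ℕ} (e : Fin m → Fin n)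
    (he : Function.Injective e) (P : (Fin m → α) → Prop) :
    ((Fintype.piFinset (fun _ : Fin n => V)).filter (fun f => P (fun i => f (e i)))).card ≤
      ((Fintype.piFinset (fun _ : Fin m => V)).filter P).card * V.card ^ (n - m) := by
  have hc : Fintype.card {i : Fin n // i ∉ Set.range e} = n - m := by
    have h2 : Fintype.card (Set.range e) = m := by
      rw [Set.card_range_of_injective he, Fintype.card_fin]
    have h0 : Fintype.card {x // x ∈ Set.range e} = m :=
      (Fintype.card_congr (Equiv.refl _)).trans h2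
    rw [Fintype.card_subtype_compl, Fintype.card_fin, h0]
  have h1 : (((Fintype.piFinset (fun _ : Fin m => V)).filter P) ×ˢ
      (Fintype.piFinset (fun _ : {i : Fin n // i ∉ Set.range e} => V))).card =
      ((Fintype.piFinset (fun _ : Fin m => V)).filter P).card * V.card ^ (n - m) := by
    rw [card_product, Fintype.card_piFinset (fun _ : {i : Fin n // i ∉ Set.range e} => V),
      prod_const, card_univ, hc]
  rw [← h1]
  apply card_le_card_of_injOn (fun f => (fun i => f (e i), fun i => f i.1))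
  · intro f hf
    simp only [coe_filter, Fintype.mem_piFinset, Set.mem_ofPred_eq] at hf
    simp only [coe_product, coe_filter, Set.mem_prod, Set.mem_ofPred_eq, Fintype.mem_piFinset, mem_coe]
    exact ⟨⟨fun i => hf.1 _, hf.2⟩, fun i => hf.1 _⟩
  · intro f _ g _ h
    simp only [Prod.mk.injEq] at h
    funext i
    by_cases hi : i ∈ Set.range e
    · obtain ⟨j, rfl⟩ := hi
      exact congrFun h.1 j
    · exact congrFun h.2 ⟨i, hi⟩

end Pool.Agent.H210S
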