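import Mathlib
import Pool.Agent.H362R2.CM.AlmostAll
import Pool.Agent.H210_S.Comb

/-!
Almost all tuples of positive rationals contain a quarter of members with pairwise ratios
`(p + c) / (q + c)` (helper210; the method of `Pool.Agent.H355R2.RatioQuarter`).
-/

set_option autoImplicit false

namespace Pool.Agent.H210S

open Finset Pool.Agent.H362R2.CM

/-- `z.1 / z.2` has infinitely many representations as `(p + c) / (q + c)` -/
def Rp (c : ℤ) (x y : ℚ) : Prop :=
  {w : ℕ × ℕ | w.1.Prime ∧ w.2.Prime ∧ ((w.1 : ℚ) + c) / ((w.2 : ℚ) + c) = x / y}.Infinite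

theorem Rp.symm {c : ℤ} {x y : ℚ} (h : Rp c x y) : Rp c y x := by
  refine (h.image (f := Prod.swap) Prod.swap_injective.injOn).mono ?_
  rintro z ⟨w, ⟨h2, h3, h4⟩, rfl⟩
  refine ⟨h3, h2, ?_⟩
  rw [← inv_div x y, ← h4, inv_div]
  rfl

theorem Rp.self {c : ℤ} (hc : c = 1 ∨ c = -1) {x : ℚ} (hx : 0 < x) : Rp c x x := by
  have h1 := Nat.infinite_setOfPred_prime.image (f := fun p : ℕ => (p, p)) (fun a _ b _ h => by
    simpa using h)
  apply h1.mono
  rintro z ⟨p, hp, rfl⟩
  refine ⟨hp, hp, ?_⟩
  have h2 : (2 : ℚ) ≤ p := by exact_mod_cast Nat.Prime.two_le hp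
  rw [div_self hx.ne']
  apply div_self
  rcases hc with rfl | rfl
  · push_cast; linarith
  · push_cast; linarith

open Classical in
/-- the tuples without a large set of indices with pairwise good ratios -/
theorem almost (c : ℤ) (hc : c = 1 ∨ c = -1) (T : ℕ) (ε : ℝ) (hε : 0 < ε) : ∃ N : ℕ,
    ∀ S : Finset ℚ, (∀ x ∈ S, 0 < x) → N ≤ S.card →
      (((Fintype.piFinset (fun _ : Fin T => S)).filter (fun f => ¬ ∃ A : Finset (Fin T),
        T ≤ 4 * A.card ∧ ∀ i ∈ A, ∀ j ∈ A, i ≠ j → Rp c (f i) (f j))).card : ℝ) ≤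
        ε * (S.card : ℝ) ^ T := by
  obtain ⟨N, hN⟩ := almost_all_finset T ε hε
  refine ⟨N, fun S hS hcard => ?_⟩
  set M : ℕ := ∏ x ∈ S, x.den with hM
  have hMpos : 0 < M := Finset.prod_pos fun x _ => x.den_pos
  have hMq : (0 : ℚ) < M := by exact_mod_cast hMpos
  set a : ℚ → ℤ := fun x => (M * x).num with ha
  have haq : ∀ x ∈ S, (a x : ℚ) = M * x := by
    intro x hx
    obtain ⟨k, hk⟩ : x.den ∣ M := Finset.dvd_prod_of_mem _ hx
    have h1 : (M : ℚ) * x = ((k * x.num : ℤ) : ℚ) := by
      rw [hk]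
      push_cast
      have : (x.den : ℚ) * x = x.num := Rat.den_mul_eq_num x
      calc (x.den : ℚ) * k * x = k * (x.den * x) := by ring
        _ = _ := by rw [this]
    rw [ha]
    show (((M : ℚ) * x).num : ℚ) = M * x
    rw [h1, Rat.num_intCast]
  have hapos : ∀ x ∈ S, 0 < a x := by
    intro x hx
    have h1 : (0 : ℚ) < a x := by
      rw [haq x hx]
      exact mul_pos hMq (hS x hx)
    exact_mod_cast h1
  set φ : ℚ → ℤ × ℤ := fun x => (a x, -c) with hφ
  have hφinj : Set.InjOn φ S := by
    intro x hx y hy h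
    have h1 : a x = a y := (Prod.ext_iff.1 h).1
    have h2 : (M : ℚ) * x = M * y := by rw [← haq x hx, ← haq y hy, h1]
    exact mul_left_cancel₀ hMq.ne' h2
  set V : Finset (ℤ × ℤ) := S.image φ with hV
  have hVcard : V.card = S.card := Finset.card_image_of_injOn hφinj
  have hVpos : ∀ f ∈ V, 0 < f.1 := by
    intro f hf
    obtain ⟨x, hx, rfl⟩ := Finset.mem_image.1 hf
    exact hapos x hx
  have h1 := hN (fun _ => V) (fun _ => hVpos) (fun _ => by rw [hVcard]; exact hcard)
  have h2 : ∏ _i : Fin T, (V.card : ℝ) = (S.card : ℝ) ^ T := by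
    rw [prod_const, card_univ, Fintype.card_fin, hVcard]
  rw [h2] at h1
  refine le_trans ?_ h1
  have h3 : ((Fintype.piFinset (fun _ : Fin T => S)).filter (fun f => ¬ ∃ A : Finset (Fin T),
        T ≤ 4 * A.card ∧ ∀ i ∈ A, ∀ j ∈ A, i ≠ j → Rp c (f i) (f j))).card ≤
      ((Fintype.piFinset (fun _ : Fin T => V)).filter (fun f => Adm f ∧
      ¬ ∃ S : Finset (Fin T), T ≤ 4 * S.card ∧ SimPrime f S)).card := by
    apply card_le_card_of_injOn (fun f i => φ (f i))
    · intro f hf
      simp only [coe_filter, Fintype.mem_piFinset, Set.mem_ofPred_eq] at hf ⊢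
      obtain ⟨hf1, hf2⟩ := hf
      refine ⟨fun i => mem_image_of_mem _ (hf1 i), ?_, ?_⟩
      · intro p hp
        refine ⟨0, fun i hdvd => ?_⟩
        have h1 : (p : ℤ) ∣ -c := by simpa [hφ] using hdvd
        have h2 : (p : ℤ) ∣ 1 := by
          rcases hc with rfl | rfl
          · exact (dvd_neg.1 h1)
          · simpa using h1
        exact hp.one_lt.ne' (by exact_mod_cast Int.eq_one_of_dvd_one (by positivity) h2)
      · rintro ⟨A, hA1, hA2⟩
        apply hf2
        refine ⟨A, hA1, fun i hi j hj _ => ?_⟩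
        have hx := hf1 i
        have hy := hf1 j
        have hax := hapos _ hx
        have hay := hapos _ hy
        have hinj : Set.InjOn (fun n : ℕ => ((a (f i) * (n : ℤ) + -c).toNat, (a (f j) * (n : ℤ) + -c).toNat))
            {n : ℕ | ∀ i ∈ A, 0 < (φ (f i)).1 * (n : ℤ) + (φ (f i)).2 ∧
              Prime ((φ (f i)).1 * (n : ℤ) + (φ (f i)).2)} := by
          intro n hn m hm h
          simp only [Set.mem_ofPred_eq] at hn hm
          have g1 := (hn i hi).1
          have g2 := (hm i hi).1
          simp only [Prod.mk.injEq] at h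
          have h4 : (0 : ℤ) < a (f i) * n + -c := g1
          have h5 : (0 : ℤ) < a (f i) * m + -c := g2
          have h6 : a (f i) * (n : ℤ) = a (f i) * m := by
            have := h.1
            omega
          exact_mod_cast mul_left_cancel₀ hax.ne' h6
        refine (Set.Infinite.image hinj hA2).mono ?_
        rintro _ ⟨n, hn, rfl⟩
        simp only [Set.mem_ofPred_eq] at hn ⊢
        obtain ⟨p1, p2⟩ := hn i hi
        obtain ⟨q1, q2⟩ := hn j hj
        have p1' : (0 : ℤ) < a (f i) * n + -c := p1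
        have q1' : (0 : ℤ) < a (f j) * n + -c := q1
        have p2' : Prime (a (f i) * (n : ℤ) + -c) := p2
        have q2' : Prime (a (f j) * (n : ℤ) + -c) := q2
        have ep : (((a (f i) * (n : ℤ) + -c).toNat : ℕ) : ℤ) = a (f i) * n + -c := Int.toNat_of_nonneg p1'.le
        have eq : (((a (f j) * (n : ℤ) + -c).toNat : ℕ) : ℤ) = a (f j) * n + -c := Int.toNat_of_nonneg q1'.le
        refine ⟨?_, ?_, ?_⟩
        · rw [Nat.prime_iff_prime_int, ep]; exact p2'
        · rw [Nat.prime_iff_prime_int, eq]; exact q2'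
        · have ep' : (((a (f i) * (n : ℤ) + -c).toNat : ℕ) : ℚ) = a (f i) * n + -c := by exact_mod_cast ep
          have eq' : (((a (f j) * (n : ℤ) + -c).toNat : ℕ) : ℚ) = a (f j) * n + -c := by exact_mod_cast eq
          rw [ep', eq', haq _ hx, haq _ hy]
          have hn0 : (n : ℚ) ≠ 0 := by
            intro h0
            have h0' : n = 0 := by exact_mod_cast h0
            subst h0'
            rw [Nat.cast_zero, mul_zero, zero_add] at p2'
            rcases hc with rfl | rfl
            · exact p2'.not_unit (by norm_num)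
            · exact p2'.not_unit (by norm_num)
          have hy0 := (hS _ hy).ne'
          have e1 : (M : ℚ) * f i * n + -c + c = M * n * f i := by ring
          have e2 : (M : ℚ) * f j * n + -c + c = M * n * f j := by ring
          rw [e1, e2, mul_div_mul_left _ _ (mul_ne_zero hMq.ne' hn0)]
    · intro f hf g hg h
      simp only [coe_filter, Fintype.mem_piFinset, Set.mem_ofPred_eq] at hf hg
      funext i
      exact hφinj (hf.1 i) (hg.1 i) (congrFun h i)
  exact_mod_cast h3

end Pool.Agent.H210S
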