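import Mathlib
import Pool.Agent.H210_S.Ratio

/-!
Ratios of shifted primes: both forms at once (helper210).
-/

set_option autoImplicit false

namespace Pool.Agent.H210S

open Finset Pool.Agent.H362R2.CM

/-- `x / y` has infinitely many representations in both forms -/
def Bo (x y : ℚ) : Prop := Rp 1 x y ∧ Rp (-1) x y

theorem Bo.symm {x y : ℚ} (h : Bo x y) : Bo y x := ⟨h.1.symm, h.2.symm⟩

open Classical in
/-- almost all `T`-tuples have `T / 16` members with pairwise good ratios -/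
theorem both_almost (T : ℕ) (ε : ℝ) (hε : 0 < ε) : ∃ N : ℕ,
    ∀ S : Finset ℚ, (∀ x ∈ S, 0 < x) → N ≤ S.card →
      (((Fintype.piFinset (fun _ : Fin T => S)).filter (fun f => ¬ ∃ A : Finset (Fin T),
        T ≤ 16 * A.card ∧ ∀ i ∈ A, ∀ j ∈ A, i ≠ j → Bo (f i) (f j))).card : ℝ) ≤
        ε * (S.card : ℝ) ^ T := by
  obtain ⟨m, hm⟩ : ∃ m : ℕ, m = (T + 3) / 4 := ⟨_, rfl⟩
  have hmT : m ≤ T := by omega
  set ε1 : ℝ := ε / (1 + (T : ℝ) ^ m) with hε1
  have hε1' : 0 < ε1 := by positivity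
  obtain ⟨N1, h1⟩ := almost 1 (Or.inl rfl) T ε1 hε1'
  obtain ⟨N2, h2⟩ := almost (-1) (Or.inr rfl) m ε1 hε1'
  refine ⟨max N1 N2, fun S hS hcard => ?_⟩
  have k1 := h1 S hS ((le_max_left _ _).trans hcard)
  have k2 := h2 S hS ((le_max_right _ _).trans hcard)
  set P : (Fin m → ℚ) → Prop := fun f => ¬ ∃ A : Finset (Fin m),
        m ≤ 4 * A.card ∧ ∀ i ∈ A, ∀ j ∈ A, i ≠ j → Rp (-1) (f i) (f j) with hP
  set B1 := (Fintype.piFinset (fun _ : Fin T => S)).filter (fun f => ¬ ∃ A : Finset (Fin T),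
        T ≤ 4 * A.card ∧ ∀ i ∈ A, ∀ j ∈ A, i ≠ j → Rp 1 (f i) (f j)) with hB1
  set E := (univ : Finset (Fin m → Fin T)).filter (fun e => Function.Injective e) with hE
  have hsub : (Fintype.piFinset (fun _ : Fin T => S)).filter (fun f => ¬ ∃ A : Finset (Fin T),
        T ≤ 16 * A.card ∧ ∀ i ∈ A, ∀ j ∈ A, i ≠ j → Bo (f i) (f j)) ⊆
      B1 ∪ E.biUnion (fun e => (Fintype.piFinset (fun _ : Fin T => S)).filter
        (fun f => P (fun i => f (e i)))) := by
    intro f hf
    rw [mem_filter] at hf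
    obtain ⟨hf1, hf2⟩ := hf
    rw [mem_union]
    by_cases hb : f ∈ B1
    · exact Or.inl hb
    · right
      have hA : ∃ A : Finset (Fin T), T ≤ 4 * A.card ∧ ∀ i ∈ A, ∀ j ∈ A, i ≠ j → Rp 1 (f i) (f j) := by
        by_contra hcon
        exact hb (mem_filter.2 ⟨hf1, hcon⟩)
      obtain ⟨A1, hA1, hA2⟩ := hA
      obtain ⟨A', hA', hA'c⟩ := Finset.exists_subset_card_eq (show m ≤ A1.card by omega)
      rw [mem_biUnion]
      refine ⟨fun i => A'.orderEmbOfFin hA'c i, ?_, ?_⟩
      · rw [hE, mem_filter]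
        exact ⟨mem_univ _, (A'.orderEmbOfFin hA'c).injective⟩
      · rw [mem_filter]
        refine ⟨hf1, ?_⟩
        rw [hP]
        rintro ⟨A2, hA3, hA4⟩
        apply hf2
        refine ⟨A2.map (A'.orderEmbOfFin hA'c).toEmbedding, ?_, ?_⟩
        · rw [card_map]
          omega
        · intro i hi j hj hij
          obtain ⟨i', hi', rfl⟩ := mem_map.1 hi
          obtain ⟨j', hj', rfl⟩ := mem_map.1 hj
          have hij' : i' ≠ j' := fun h => hij (by rw [h])
          refine ⟨hA2 _ (hA' ?_) _ (hA' ?_) hij, hA4 i' hi' j' hj' hij'⟩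
          · exact A'.orderEmbOfFin_mem hA'c i'
          · exact A'.orderEmbOfFin_mem hA'c j'
  have hcardE : (E.card : ℝ) ≤ (T : ℝ) ^ m := by
    have : E.card ≤ T ^ m := by
      calc E.card ≤ (univ : Finset (Fin m → Fin T)).card := card_filter_le _ _
        _ = T ^ m := by rw [card_univ, Fintype.card_fun, Fintype.card_fin, Fintype.card_fin]
    exact_mod_cast this
  have hfib : ∀ e ∈ E, (((Fintype.piFinset (fun _ : Fin T => S)).filter
        (fun f => P (fun i => f (e i)))).card : ℝ) ≤ ε1 * (S.card : ℝ) ^ T := by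
    intro e he
    have he' := (mem_filter.1 he).2
    have k3 : ((Fintype.piFinset (fun _ : Fin T => S)).filter
        (fun f => P (fun i => f (e i)))).card ≤
        ((Fintype.piFinset (fun _ : Fin m => S)).filter P).card * S.card ^ (T - m) := by
      convert fiber S e he' P
    calc (((Fintype.piFinset (fun _ : Fin T => S)).filter
        (fun f => P (fun i => f (e i)))).card : ℝ) ≤
        (((Fintype.piFinset (fun _ : Fin m => S)).filter P).card : ℝ) * (S.card : ℝ) ^ (T - m) := by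
          exact_mod_cast k3
      _ ≤ (ε1 * (S.card : ℝ) ^ m) * (S.card : ℝ) ^ (T - m) := by gcongr
      _ = ε1 * (S.card : ℝ) ^ T := by
        rw [mul_assoc, ← pow_add, Nat.add_sub_cancel' hmT]
  have hfin := (Finset.card_le_card hsub).trans (Finset.card_union_le _ _)
  have hbi : ((E.biUnion (fun e => (Fintype.piFinset (fun _ : Fin T => S)).filter
        (fun f => P (fun i => f (e i))))).card : ℝ) ≤ (T : ℝ) ^ m * (ε1 * (S.card : ℝ) ^ T) := by
    calc ((E.biUnion (fun e => (Fintype.piFinset (fun _ : Fin T => S)).filter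
        (fun f => P (fun i => f (e i))))).card : ℝ) ≤
        ((∑ e ∈ E, ((Fintype.piFinset (fun _ : Fin T => S)).filter
        (fun f => P (fun i => f (e i)))).card : ℕ) : ℝ) := by exact_mod_cast card_biUnion_le
      _ = ∑ e ∈ E, (((Fintype.piFinset (fun _ : Fin T => S)).filter
        (fun f => P (fun i => f (e i)))).card : ℝ) := by push_cast; rfl
      _ ≤ ∑ _e ∈ E, ε1 * (S.card : ℝ) ^ T := sum_le_sum hfib
      _ = (E.card : ℝ) * (ε1 * (S.card : ℝ) ^ T) := by rw [sum_const, nsmul_eq_mul]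
      _ ≤ (T : ℝ) ^ m * (ε1 * (S.card : ℝ) ^ T) := by gcongr
  have hfin' : (((Fintype.piFinset (fun _ : Fin T => S)).filter (fun f => ¬ ∃ A : Finset (Fin T),
        T ≤ 16 * A.card ∧ ∀ i ∈ A, ∀ j ∈ A, i ≠ j → Bo (f i) (f j))).card : ℝ) ≤
      (B1.card : ℝ) + ((E.biUnion (fun e => (Fintype.piFinset (fun _ : Fin T => S)).filter
        (fun f => P (fun i => f (e i))))).card : ℝ) := by exact_mod_cast hfin
  refine hfin'.trans ((add_le_add k1 hbi).trans (le_of_eq ?_))
  rw [hε1]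
  have : (1 + (T : ℝ) ^ m) ≠ 0 := by positivity
  field_simp

open Classical in
/-- a sixteenth of the pairs -/
theorem sixteenth (ε : ℝ) (hε : 0 < ε) : ∃ N : ℕ,
    ∀ S : Finset ℚ, (∀ x ∈ S, 0 < x) → N ≤ S.card →
      (1 / 16 - ε) * (S.card : ℝ) ^ 2 ≤
        (((S ×ˢ S).filter (fun z => z.1 ≠ z.2 ∧ Bo z.1 z.2)).card : ℝ) := by
  set δ : ℝ := ε / 2 with hδ
  have hδ0 : 0 < δ := by positivity
  obtain ⟨N, hN⟩ := both_almost 17 (δ ^ 16 / 2) (by positivity)
  obtain ⟨N2, hN2⟩ := exists_nat_ge (2 / ε)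
  refine ⟨max N N2 + 1, fun S hS hcard => ?_⟩
  have hSN : N ≤ S.card := ((le_max_left _ _).trans (Nat.le_succ _)).trans hcard
  have hSN2 : (2 / ε : ℝ) ≤ S.card :=
    hN2.trans (by exact_mod_cast ((le_max_right N N2).trans (Nat.le_succ _)).trans hcard)
  have hSpos : 0 < S.card := by omega
  have hSpos' : (0 : ℝ) < S.card := by exact_mod_cast hSpos
  by_contra hcon
  have hcon := not_le.1 hcon
  set C : ℚ → ℚ → Prop := fun x y => ¬ Bo x y with hC
  have hCs : ∀ x y, C x y → C y x := fun x y h h' => h h'.symm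
  have h2 : ((clq S C 2).card : ℝ) = (((S ×ˢ S).filter (fun x => ¬ Bo x.1 x.2)).card : ℝ) := by
    congr 1
    apply Finset.card_bij (fun f _ => (f 0, f 1))
    · intro f hf
      rw [mem_clq] at hf
      rw [mem_filter, mem_product]
      exact ⟨⟨hf.1 0, hf.1 1⟩, hf.2 0 1 (by decide)⟩
    · intro f _ f' _ h
      simp only [Prod.mk.injEq] at h
      funext i
      fin_cases i
      · exact h.1
      · exact h.2
    · intro x hx
      rw [mem_filter, mem_product] at hx
      refine ⟨![x.1, x.2], ?_, by simp⟩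
      rw [mem_clq]
      constructor
      · intro i
        fin_cases i
        · exact hx.1.1
        · exact hx.1.2
      · intro i j hij
        fin_cases i <;> fin_cases j
        · exact absurd rfl hij
        · exact hx.2
        · exact fun h => hx.2 h.symm
        · exact absurd rfl hij
  have h3 : (((S ×ˢ S).filter (fun x => Bo x.1 x.2)).card : ℝ) +
      (((S ×ˢ S).filter (fun x => ¬ Bo x.1 x.2)).card : ℝ) = (S.card : ℝ) ^ 2 := by
    have h4 := Finset.card_filter_add_card_filter_not (s := S ×ˢ S) (fun x : ℚ × ℚ => Bo x.1 x.2)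
    rw [card_product] at h4
    rw [pow_two]
    exact_mod_cast h4
  have hsplit : ((S ×ˢ S).filter (fun x => Bo x.1 x.2)).card ≤
      ((S ×ˢ S).filter (fun z => z.1 ≠ z.2 ∧ Bo z.1 z.2)).card + S.card := by
    have h1 : (S ×ˢ S).filter (fun x => Bo x.1 x.2) ⊆
        (S ×ˢ S).filter (fun z => z.1 ≠ z.2 ∧ Bo z.1 z.2) ∪ S.image (fun x => (x, x)) := by
      rintro ⟨x, y⟩ hxy
      rw [Finset.mem_filter, Finset.mem_product] at hxy
      rw [Finset.mem_union, Finset.mem_filter, Finset.mem_product]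
      by_cases h : x = y
      · right
        subst h
        exact Finset.mem_image.2 ⟨x, hxy.1.1, rfl⟩
      · left
        exact ⟨hxy.1, h, hxy.2⟩
    exact (Finset.card_le_card h1).trans ((Finset.card_union_le _ _).trans
      (Nat.add_le_add_left Finset.card_image_le _))
  have hsplit' : (((S ×ˢ S).filter (fun x => Bo x.1 x.2)).card : ℝ) ≤
      (((S ×ˢ S).filter (fun z => z.1 ≠ z.2 ∧ Bo z.1 z.2)).card : ℝ) + (S.card : ℝ) := by
    exact_mod_cast hsplit
  have h5 : (S.card : ℝ) ≤ ε / 2 * (S.card : ℝ) ^ 2 := by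
    have h3 : 1 ≤ ε / 2 * (S.card : ℝ) := by
      rw [div_le_iff₀ hε] at hSN2
      linarith
    nlinarith
  have h6 := turan_gen S C hCs hSpos 16 (by norm_num) δ hδ0 (by
    rw [h2]
    push_cast
    rw [hδ]
    nlinarith)
  have h7 : (clq S C 17).card ≤ ((Fintype.piFinset (fun _ : Fin 17 => S)).filter (fun f =>
      ¬ ∃ A : Finset (Fin 17), 17 ≤ 16 * A.card ∧ ∀ i ∈ A, ∀ j ∈ A, i ≠ j →
        Bo (f i) (f j))).card := by
    apply card_le_card
    intro f hf
    rw [mem_clq] at hf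
    rw [mem_filter, Fintype.mem_piFinset]
    refine ⟨hf.1, ?_⟩
    rintro ⟨A, hA1, hA2⟩
    have hA3 : 1 < A.card := by omega
    obtain ⟨i, hi, j, hj, hij⟩ := Finset.one_lt_card.1 hA3
    exact hf.2 i j hij (hA2 i hi j hj hij)
  have h8 := hN S hS hSN
  have h9 : ((clq S C 17).card : ℝ) ≤ δ ^ 16 / 2 * (S.card : ℝ) ^ 17 :=
    le_trans (by exact_mod_cast h7) h8
  have h10 : δ ^ 16 * (S.card : ℝ) ^ 17 ≤ ((clq S C 17).card : ℝ) := h6
  have h11 : 0 < δ ^ 16 * (S.card : ℝ) ^ 17 := by positivity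
  linarith

end Pool.Agent.H210S
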